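import Pool.Agent.MP_649b0b_mp.H34.Defs

/-!
Permutation invariant qubit codes for an arbitrary number of deletions.
-/

noncomputable section

namespace Pool.Agent.MP_649b0b_mp.H70

open H34

/-- The two states with Dicke coefficients `c 0`, `c 1` are orthonormal and satisfy the
Knill-Laflamme conditions for `s` deletions. -/
def IsDel (n s : ℕ) (c : Fin 2 → Fin (n + 1) → ℂ) : Prop :=
  (∀ a b, braket (state (c a)) (state (c b)) = if a = b then 1 else 0) ∧
    ∀ (I J : Finset (Fin n)) (hI : I.card = s) (hJ : J.card = s) (x y : Fin s → Fin 2),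
      ∃ g : ℂ, ∀ a b,
        braket (del I hI x (state (c a))) (del J hJ y (state (c b))) = if a = b then g else 0

end Pool.Agent.MP_649b0b_mp.H70
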