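import Mathlib

/-!
The trace over one qubit on symmetric states and its norm.
-/

open Finset

noncomputable section

namespace Pool.Agent.MP_649b0b_mp.H70

/-- The trace form on kernels of operators on `k` qubits which only depend on the weights. -/
def ip (k : ℕ) (M N : ℕ → ℕ → ℝ) : ℝ :=
  ∑ i ∈ range (k + 1), ∑ j ∈ range (k + 1), (k.choose i : ℝ) * k.choose j * (M i j * N i j)

/-- The trace over one qubit. -/
def tr1 {R : Type} [Add R] (M : ℕ → ℕ → R) (i j : ℕ) : R := M i j + M (i + 1) (j + 1)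

/-- The adjoint of the trace over one qubit. -/
def up (x : ℝ) (M : ℕ → ℕ → ℝ) (i j : ℕ) : ℝ :=
  (x - i) * (x - j) * M i j + i * j * M (i - 1) (j - 1)

theorem ip_comm (k : ℕ) (M N : ℕ → ℕ → ℝ) : ip k M N = ip k N M := by
  simp only [ip, mul_comm (M _ _)]

theorem ip_nonneg (k : ℕ) (M : ℕ → ℕ → ℝ) : 0 ≤ ip k M M :=
  sum_nonneg fun _ _ => sum_nonneg fun _ _ => mul_nonneg (by positivity) (mul_self_nonneg _)

theorem sum_lo (k : ℕ) (f : ℕ → ℝ) :
    ∑ i ∈ range (k + 2), ((k + 1).choose i : ℝ) * (((k + 1 : ℕ) : ℝ) - i) * f i =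
      (k + 1) * ∑ i ∈ range (k + 1), (k.choose i : ℝ) * f i := by
  rw [sum_range_succ, sub_self, mul_zero, zero_mul, add_zero, mul_sum]
  refine sum_congr rfl fun i hi => ?_
  have h1 : i ≤ k + 1 := by have := mem_range.mp hi; omega
  have h2 : ((k.choose i * (k + 1) : ℕ) : ℝ) = ((k + 1).choose i * (k + 1 - i) : ℕ) := by
    rw [Nat.choose_mul_succ_eq]
  rw [Nat.cast_mul, Nat.cast_mul, Nat.cast_sub h1] at h2
  rw [← h2]
  push_cast
  ring

theorem sum_hi (k : ℕ) (f : ℕ → ℝ) :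
    ∑ i ∈ range (k + 2), ((k + 1).choose i : ℝ) * i * f i =
      (k + 1) * ∑ i ∈ range (k + 1), (k.choose i : ℝ) * f (i + 1) := by
  rw [sum_range_succ', Nat.cast_zero, mul_zero, zero_mul, add_zero, mul_sum]
  refine sum_congr rfl fun i _ => ?_
  have h2 : (((k + 1) * k.choose i : ℕ) : ℝ) = ((k + 1).choose (i + 1) * (i + 1) : ℕ) := by
    rw [Nat.add_one_mul_choose_eq]
  rw [Nat.cast_mul, Nat.cast_mul] at h2
  rw [← h2]
  push_cast
  ring

theorem adj (k : ℕ) (Y Z : ℕ → ℕ → ℝ) : ip k Y (up k Z) = (k : ℝ) ^ 2 * ip (k - 1) (tr1 Y) Z := by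
  rcases k with _ | k
  · simp [ip, up]
  have e1 : ∀ i, ∑ j ∈ range (k + 2), ((k + 1).choose i : ℝ) * (k + 1).choose j *
      (Y i j * up (k + 1 : ℕ) Z i j) =
      ((k + 1).choose i : ℝ) * (((k + 1 : ℕ) : ℝ) - i) *
        ((k + 1) * ∑ j ∈ range (k + 1), (k.choose j : ℝ) * (Y i j * Z i j)) +
      ((k + 1).choose i : ℝ) * i *
        ((k + 1) * ∑ j ∈ range (k + 1), (k.choose j : ℝ) * (Y i (j + 1) * Z (i - 1) j)) := by
    intro i
    have a1 := sum_lo k fun j => Y i j * Z i j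
    have a2 := sum_hi k fun j => Y i j * Z (i - 1) (j - 1)
    simp only [Nat.add_sub_cancel] at a2
    rw [← a1, ← a2, mul_sum, mul_sum, ← sum_add_distrib]
    refine sum_congr rfl fun j _ => ?_
    unfold up
    ring
  unfold ip
  rw [sum_congr rfl fun i _ => e1 i, sum_add_distrib, sum_lo, sum_hi]
  simp only [Nat.add_sub_cancel, mul_sum, ← sum_add_distrib, tr1]
  refine sum_congr rfl fun i _ => sum_congr rfl fun j _ => ?_
  push_cast
  ring

theorem comm (x : ℝ) (Z : ℕ → ℕ → ℝ) (i j : ℕ) :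
    tr1 (up (x + 1) Z) i j = up x (tr1 Z) i j + (2 * x + 2) * Z i j := by
  simp only [tr1, up, Nat.add_sub_cancel]
  rcases i with _ | i
  · push_cast
    ring
  rcases j with _ | j
  · push_cast
    ring
  simp only [Nat.add_sub_cancel]
  push_cast
  ring

/-- Vanishing of the first `d` rows and columns. -/
def Van {R : Type} [Zero R] (d : ℕ) (M : ℕ → ℕ → R) : Prop := ∀ i j, i < d → j < d → M i j = 0

theorem gap (d m : ℕ) (Y : ℕ → ℕ → ℝ) (h : Van d (tr1^[m + 1] Y)) :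
    ((d + m : ℕ) : ℝ) ^ 2 * ip (d + m - 1) (tr1 Y) (tr1 Y) ≤
      m * (2 * d + m + 1) * ip (d + m) Y Y := by
  induction m generalizing Y with
  | zero =>
    rcases d with _ | d
    · simp
    · have : ip d (tr1 Y) (tr1 Y) = 0 := sum_eq_zero fun i hi => sum_eq_zero fun j hj => by
        have h0 : tr1 Y i j = 0 := h i j (mem_range.mp hi) (mem_range.mp hj)
        rw [h0, mul_zero, mul_zero]
      simp [this]
  | succ m ih =>
    have h1 := ih (tr1 Y) h
    rw [← add_assoc, Nat.add_sub_cancel]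
    generalize hk : d + m = k at *
    have hk' : (d : ℝ) + m = k := by exact_mod_cast hk
    generalize hZ : tr1 Y = Z at *
    have h2 := adj (k + 1) Y Z
    have h3 := adj (k + 1) (up (k + 1 : ℕ) Z) Z
    have h4 := adj k Z (tr1 Z)
    rw [Nat.add_sub_cancel] at h2 h3
    rw [hZ] at h2
    have h5 : ip k (tr1 (up (k + 1 : ℕ) Z)) Z = ip k Z (up k (tr1 Z)) + (2 * k + 2) * ip k Z Z := by
      simp only [ip, mul_sum, ← sum_add_distrib, Nat.cast_succ, comm]
      exact sum_congr rfl fun i _ => sum_congr rfl fun j _ => by ring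
    obtain ⟨l, hl⟩ : ∃ l : ℝ, l = (m + 1) * (2 * d + (m + 1) + 1) := ⟨_, rfl⟩
    have hl0 : 0 < l := by rw [hl]; positivity
    have h6 := ip_nonneg (k + 1) fun i j => l * Y i j - up (k + 1 : ℕ) Z i j
    have h7 : ip (k + 1) (fun i j => l * Y i j - up (k + 1 : ℕ) Z i j)
        (fun i j => l * Y i j - up (k + 1 : ℕ) Z i j) =
        l ^ 2 * ip (k + 1) Y Y - 2 * l * ip (k + 1) Y (up (k + 1 : ℕ) Z) +
          ip (k + 1) (up (k + 1 : ℕ) Z) (up (k + 1 : ℕ) Z) := by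
      simp only [ip, mul_sum, ← sum_add_distrib, ← sum_sub_distrib]
      exact sum_congr rfl fun i _ => sum_congr rfl fun j _ => by ring
    rw [h7, h2, h3, h5, h4] at h6
    have h8 : (k : ℝ) ^ 2 * ip (k - 1) (tr1 Z) (tr1 Z) + (2 * k + 2) * ip k Z Z ≤ l * ip k Z Z := by
      have : l = m * (2 * d + m + 1) + (2 * k + 2) := by rw [hl, ← hk']; ring
      rw [this, add_mul]
      linarith
    have h9 := mul_le_mul_of_nonneg_left h8 (sq_nonneg ((k + 1 : ℕ) : ℝ))
    rw [Nat.cast_succ m, ← hl]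
    refine le_of_mul_le_mul_left ?_ hl0
    nlinarith

theorem shift (n : ℕ) (σ : ℕ → ℝ) :
    ∑ k ∈ range (n + 1), (n.choose k : ℝ) ^ 2 * ((k : ℝ) ^ 2 * σ (k - 1)) =
      ∑ k ∈ range (n + 1), (n.choose k : ℝ) ^ 2 * (((n : ℝ) - k) ^ 2 * σ k) := by
  rw [sum_range_succ', sum_range_succ]
  simp only [Nat.add_sub_cancel, Nat.cast_zero, sub_self]
  congr 1
  · refine sum_congr rfl fun k hk => ?_
    have h2 : ((n.choose (k + 1) * (k + 1) : ℕ) : ℝ) = (n.choose k * (n - k) : ℕ) := by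
      rw [Nat.choose_succ_right_eq]
    rw [Nat.cast_mul, Nat.cast_mul, Nat.cast_sub (mem_range.mp hk).le] at h2
    rw [← mul_assoc, ← mul_assoc, ← mul_pow, ← mul_pow, h2]
  · ring

theorem flip (n : ℕ) (g : ℝ → ℝ) (σ : ℕ → ℝ) :
    ∑ k ∈ range (n + 1), (n.choose k : ℝ) ^ 2 * (g k * σ (n - k)) =
      ∑ k ∈ range (n + 1), (n.choose k : ℝ) ^ 2 * (g (n - k) * σ k) := by
  rw [← sum_range_reflect]
  refine sum_congr rfl fun k hk => ?_
  have h : k ≤ n := Nat.lt_succ_iff.mp (mem_range.mp hk)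
  rw [Nat.add_sub_cancel, Nat.choose_symm h, Nat.sub_sub_self h, Nat.cast_sub h]

/-- The numerical inequality. -/
theorem seq (n : ℕ) (D : ℝ) (α δ : ℕ → ℝ) (hn : 2 ≤ n) (h0 : ∀ k, 0 ≤ α k) (h1 : 0 < α 0)
    (hδ : ∀ k ≤ n, δ k = α (n - k) - α k / 2) (hδ0 : δ 0 = 0)
    (hI : ∀ k ≤ n, (k : ℝ) ^ 2 * α (k - 1) ≤ k * (k + 1) * α k)
    (hII : ∀ k ≤ n, (k : ℝ) ^ 2 * δ (k - 1) ≤ (k * (k + 1) - D) * δ k) : D < 2 * n := by
  have hU : 0 < ∑ k ∈ range (n + 1), (n.choose k : ℝ) ^ 2 * α k :=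
    sum_pos' (fun k _ => mul_nonneg (sq_nonneg _) (h0 k)) ⟨0, by simp, by simpa using h1⟩
  have hA : ∑ k ∈ range (n + 1), (n.choose k : ℝ) ^ 2 * ((k : ℝ) ^ 2 * α (k - 1)) <
      ∑ k ∈ range (n + 1), (n.choose k : ℝ) ^ 2 * (k * (k + 1) * α k) := by
    refine sum_lt_sum (fun k hk => mul_le_mul_of_nonneg_left
      (hI k (Nat.lt_succ_iff.mp (mem_range.mp hk))) (sq_nonneg _)) ?_
    by_contra hc
    have hc' : ∀ k ≤ n, ((k : ℝ) + 1) * α k ≤ α 0 := by
      intro k hk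
      induction k with
      | zero => simp
      | succ k ih =>
        refine le_trans ?_ (ih (by omega))
        by_contra h3
        refine hc ⟨k + 1, mem_range.mpr (by omega), mul_lt_mul_of_pos_left ?_ ?_⟩
        · rw [Nat.add_sub_cancel, sq, mul_assoc, mul_assoc, Nat.cast_succ]
          rw [Nat.cast_succ] at h3
          exact mul_lt_mul_of_pos_left (not_le.mp h3) (by positivity)
        · have := Nat.choose_pos hk
          positivity
    have h3 := hc' n le_rfl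
    have h4 := hδ 0 (by omega)
    rw [hδ0, Nat.sub_zero] at h4
    have h5 : (2 : ℝ) ≤ n := by exact_mod_cast hn
    nlinarith
  have hB := sum_le_sum fun k (hk : k ∈ range (n + 1)) => mul_le_mul_of_nonneg_left
    (hII k (Nat.lt_succ_iff.mp (mem_range.mp hk))) (sq_nonneg (n.choose k : ℝ))
  rw [shift] at hA hB
  have hC := flip n (fun x => x * (x + 1) - D - (n - x) ^ 2) α
  have hD : 0 ≤ ∑ k ∈ range (n + 1), (n.choose k : ℝ) ^ 2 *
      ((k * (k + 1) - D - (n - k) ^ 2) * α (n - k)) - ∑ k ∈ range (n + 1), (n.choose k : ℝ) ^ 2 *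
      ((k * (k + 1) - D - (n - k) ^ 2) * α k) / 2 := by
    rw [← sub_nonneg, ← sum_sub_distrib] at hB
    rw [← sum_sub_distrib]
    refine hB.trans_eq (sum_congr rfl fun k hk => ?_)
    rw [hδ k (Nat.lt_succ_iff.mp (mem_range.mp hk))]
    ring
  rw [hC] at hD
  rw [← sub_pos, ← sum_sub_distrib] at hA
  rw [← sum_sub_distrib] at hD
  have hE : ∑ k ∈ range (n + 1), ((n.choose k : ℝ) ^ 2 *
      (((n - k) * (n - k + 1) - D - (n - (n - k)) ^ 2) * α k) - (n.choose k : ℝ) ^ 2 *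
      ((k * (k + 1) - D - (n - k) ^ 2) * α k) / 2) =
      (n - D / 2) * ∑ k ∈ range (n + 1), (n.choose k : ℝ) ^ 2 * α k -
      3 / 2 * ∑ k ∈ range (n + 1), ((n.choose k : ℝ) ^ 2 * (k * (k + 1) * α k) -
        (n.choose k : ℝ) ^ 2 * ((n - k) ^ 2 * α k)) := by
    rw [mul_sum, mul_sum, ← sum_sub_distrib]
    exact sum_congr rfl fun k _ => by ring
  rw [hE] at hD
  by_contra hc
  nlinarith [mul_nonneg (show 0 ≤ D / 2 - n by linarith) hU.le]

end Pool.Agent.MP_649b0b_mp.H70
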