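import Pool.Agent.MP_649b0b_mp.H34.Code
import Pool.Agent.MP_649b0b_mp.H70.Defs
import Pool.Agent.MP_649b0b_mp.H70.Gap

/-!
A quadratic lower bound for the length of permutation invariant qubit codes.
-/

open Finset
open scoped ComplexConjugate

noncomputable section

namespace Pool.Agent.MP_649b0b_mp.H70

open H34

theorem itr (m : ℕ) (M : ℕ → ℕ → ℂ) (i j : ℕ) :
    tr1^[m] M i j = ∑ w ∈ range (m + 1), (m.choose w : ℂ) * M (w + i) (w + j) := by
  induction m generalizing i j with
  | zero => simp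
  | succ m ih =>
    rw [Function.iterate_succ_apply', tr1, ih, ih, sum_choose_succ_mul fun w _ => M (w + i) (w + j)]
    simp only [add_assoc, add_comm 1]

/-- The squared norm of a complex kernel. -/
def nC (k : ℕ) (M : ℕ → ℕ → ℂ) : ℝ :=
  ip k (fun i j => (M i j).re) (fun i j => (M i j).re) + ip k (fun i j => (M i j).im) fun i j => (M i j).im

/-- The Hermitian form on complex kernels. -/
def ipC (k : ℕ) (M N : ℕ → ℕ → ℂ) : ℂ :=
  ∑ i ∈ range (k + 1), ∑ j ∈ range (k + 1), (k.choose i : ℂ) * k.choose j * (conj (M i j) * N i j)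

theorem nC_nonneg (k : ℕ) (M : ℕ → ℕ → ℂ) : 0 ≤ nC k M := add_nonneg (ip_nonneg _ _) (ip_nonneg _ _)

theorem nC_eq (k : ℕ) (M : ℕ → ℕ → ℂ) : (nC k M : ℂ) = ipC k M M := by
  simp only [nC, ip, ipC, ← sum_add_distrib, ← mul_add, ← Complex.normSq_apply, ← Complex.normSq_eq_conj_mul_self]
  push_cast
  rfl

theorem nC_van {k : ℕ} {M : ℕ → ℕ → ℂ} (h : Van (k + 1) M) : nC k M = 0 := by
  have : ipC k M M = 0 := sum_eq_zero fun i hi => sum_eq_zero fun j hj => by
    rw [h i j (mem_range.mp hi) (mem_range.mp hj), mul_zero, mul_zero]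
  exact_mod_cast (nC_eq k M).trans this

theorem itr_map (f : ℂ →+ ℝ) (m : ℕ) (M : ℕ → ℕ → ℂ) :
    tr1^[m] (fun i j => f (M i j)) = fun i j => f (tr1^[m] M i j) := by
  induction m with
  | zero => rfl
  | succ m ih =>
    rw [Function.iterate_succ_apply', Function.iterate_succ_apply', ih]
    funext i j
    simp only [tr1, map_add]

theorem gapC (d m : ℕ) (Y : ℕ → ℕ → ℂ) (h : Van d (tr1^[m + 1] Y)) :
    ((d + m : ℕ) : ℝ) ^ 2 * nC (d + m - 1) (tr1 Y) ≤ m * (2 * d + m + 1) * nC (d + m) Y := by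
  have h1 := gap d m (fun i j => Complex.reAddGroupHom (Y i j)) (by
    rw [itr_map]
    exact fun i j hi hj => by simp only [h i j hi hj, map_zero])
  have h2 := gap d m (fun i j => Complex.imAddGroupHom (Y i j)) (by
    rw [itr_map]
    exact fun i j hi hj => by simp only [h i j hi hj, map_zero])
  unfold nC
  rw [mul_add, mul_add]
  exact add_le_add h1 h2

theorem van_itr {d : ℕ} (j : ℕ) {M : ℕ → ℕ → ℂ} (h : Van (d + j) M) : Van d (tr1^[j] M) := by
  intro u v hu hv
  rw [itr]
  refine sum_eq_zero fun w hw => ?_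
  have := mem_range.mp hw
  rw [h _ _ (by omega) (by omega), mul_zero]

/-- The inequality at every level for a kernel whose reduction to `s` qubits vanishes. -/
theorem level (n s k : ℕ) (X : ℕ → ℕ → ℂ) (hs : s ≤ n) (hk : k ≤ n) (h : Van (s + 1) (tr1^[n - s] X)) :
    (k : ℝ) ^ 2 * nC (k - 1) (tr1^[n - (k - 1)] X) ≤
      (k * (k + 1) - (s + 1) * (s + 2)) * nC k (tr1^[n - k] X) := by
  have low : ∀ l ≤ s, nC l (tr1^[n - l] X) = 0 := by
    intro l hl
    rw [show n - l = s - l + (n - s) by omega, Function.iterate_add_apply]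
    exact nC_van (van_itr _ (by rwa [show l + 1 + (s - l) = s + 1 by omega]))
  by_cases hks : k ≤ s
  · rw [low k hks, low (k - 1) (by omega), mul_zero, mul_zero]
  obtain ⟨m, rfl⟩ : ∃ m, k = s + 1 + m := ⟨k - (s + 1), by omega⟩
  have key := gapC (s + 1) m (tr1^[n - (s + 1 + m)] X) (by
    rwa [← Function.iterate_add_apply, show m + 1 + (n - (s + 1 + m)) = n - s by omega])
  rw [show n - (s + 1 + m - 1) = n - (s + 1 + m) + 1 by omega, Function.iterate_succ_apply']
  refine key.trans_eq ?_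
  push_cast
  ring

/-- The kernel of the operator attached to two sequences of amplitudes. -/
def ker (x y : ℕ → ℂ) (i j : ℕ) : ℂ := conj (x i) * y j

theorem dual (k l : ℕ) (x y : ℕ → ℂ) :
    ipC l (tr1^[k] (ker x x)) (tr1^[k] (ker y y)) = ipC k (tr1^[l] (ker x y)) (tr1^[l] (ker x y)) := by
  simp only [ipC, itr, ker, map_sum, map_mul, map_natCast, Complex.conj_conj, sum_mul_sum]
  simp only [mul_sum]
  have sw : ∀ f : ℕ → ℕ → ℕ → ℕ → ℂ,
      ∑ i ∈ range (l + 1), ∑ j ∈ range (l + 1), ∑ u ∈ range (k + 1), ∑ v ∈ range (k + 1), f i j u v =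
      ∑ u ∈ range (k + 1), ∑ v ∈ range (k + 1), ∑ i ∈ range (l + 1), ∑ j ∈ range (l + 1), f i j u v := by
    intro f
    rw [← sum_product' (f := fun i j => ∑ u ∈ range (k + 1), ∑ v ∈ range (k + 1), f i j u v), sum_comm]
    refine sum_congr rfl fun u _ => ?_
    rw [sum_comm]
    exact sum_congr rfl fun v _ => sum_product' _ _ fun i j => f i j u v
  rw [sw]
  refine sum_congr rfl fun u _ => sum_congr rfl fun v _ => sum_congr rfl fun i _ => sum_congr rfl fun j _ => ?_
  rw [add_comm u i, add_comm u j, add_comm v i, add_comm v j]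
  ring

theorem main_amp (n s : ℕ) (hs : s ≤ n) (hn : 2 ≤ n) (x y : ℕ → ℂ)
    (h0 : tr1^[n] (ker x x) 0 0 = 1) (h1 : tr1^[n] (ker y y) 0 0 = 1)
    (hxy : Van (s + 1) (tr1^[n - s] (ker x y))) (hyx : Van (s + 1) (tr1^[n - s] (ker y x)))
    (hz : Van (s + 1) (tr1^[n - s] fun i j => ker x x i j - ker y y i j)) :
    ((s : ℝ) + 1) * (s + 2) < 2 * n := by
  have eadd : ∀ m, (tr1^[m] fun i j => ker x x i j + ker y y i j) =
      fun i j => tr1^[m] (ker x x) i j + tr1^[m] (ker y y) i j := fun m => by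
    funext i j
    simp only [itr, mul_add, sum_add_distrib]
  have esub : ∀ m, (tr1^[m] fun i j => ker x x i j - ker y y i j) =
      fun i j => tr1^[m] (ker x x) i j - tr1^[m] (ker y y) i j := fun m => by
    funext i j
    simp only [itr, mul_sub, sum_sub_distrib]
  have iadd : ∀ k (A B : ℕ → ℕ → ℂ), (nC k fun i j => A i j + B i j : ℝ) =
      ipC k A A + ipC k A B + ipC k B A + ipC k B B := fun k A B => by
    simp only [nC_eq, ipC, ← sum_add_distrib, map_add]
    exact sum_congr rfl fun i _ => sum_congr rfl fun j _ => by ring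
  have isub : ∀ k (A B : ℕ → ℕ → ℂ), (nC k fun i j => A i j - B i j : ℝ) =
      ipC k A A - ipC k A B - ipC k B A + ipC k B B := fun k A B => by
    simp only [nC_eq, ipC, ← sum_add_distrib, ← sum_sub_distrib, map_sub]
    exact sum_congr rfl fun i _ => sum_congr rfl fun j _ => by ring
  refine seq n _ (fun k => nC k (tr1^[n - k] fun i j => ker x x i j + ker y y i j))
    (fun k => nC k (tr1^[n - k] (ker x y)) + nC k (tr1^[n - k] (ker y x)) +
      nC k (tr1^[n - k] fun i j => ker x x i j - ker y y i j) / 2) hn (fun k => nC_nonneg _ _) ?_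
    (fun k hk => ?_) ?_ (fun k hk => ?_) fun k hk => ?_
  · have : (nC 0 (tr1^[n - 0] fun i j => ker x x i j + ker y y i j) : ℂ) = (4 : ℝ) := by
      rw [nC_eq, eadd]
      simp only [ipC, Nat.sub_zero, zero_add, range_one, sum_singleton, h0, h1]
      norm_num [map_ofNat]
    rw [Complex.ofReal_inj.mp this]
    norm_num
  · rw [← Complex.ofReal_inj]
    push_cast
    rw [Nat.sub_sub_self hk, eadd, eadd, esub, iadd, iadd, isub, dual k (n - k) x x, dual k (n - k) x y,
      dual k (n - k) y x, dual k (n - k) y y, nC_eq, nC_eq]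
    ring
  · have low : ∀ X : ℕ → ℕ → ℂ, Van (s + 1) (tr1^[n - s] X) → nC 0 (tr1^[n - 0] X) = 0 := by
      intro X h
      rw [show n - 0 = s + (n - s) by omega, Function.iterate_add_apply]
      exact nC_van (van_itr _ (by rwa [show 0 + 1 + s = s + 1 by omega]))
    simp only [low _ hxy, low _ hyx, low _ hz]
    norm_num
  · rcases k with _ | k
    · simp
    have key := gapC 0 (k + 1) (tr1^[n - (k + 1)] fun i j => ker x x i j + ker y y i j)
      fun _ _ h => absurd h (Nat.not_lt_zero _)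
    rw [zero_add] at key
    rw [show n - (k + 1 - 1) = n - (k + 1) + 1 by omega, Function.iterate_succ_apply']
    refine key.trans_eq ?_
    push_cast
    ring
  · have a1 := level n s k _ hs hk hxy
    have a2 := level n s k _ hs hk hyx
    have a3 := level n s k _ hs hk hz
    linarith

/-- The amplitudes of a state. -/
def amp {n : ℕ} (α : Fin (n + 1) → ℂ) (i : ℕ) : ℂ :=
  if h : i < n + 1 then α ⟨i, h⟩ * ((√(n.choose i) : ℝ) : ℂ)⁻¹ else 0

theorem state_amp {n : ℕ} (α : Fin (n + 1) → ℂ) (z : Fin n → Fin 2) : state α z = amp α (wt z) := by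
  rw [state, sum_eq_single ⟨wt z, Nat.lt_succ_of_le (wt_le z)⟩ (fun i _ hi => by
    rw [dicke, if_neg fun e => hi (Fin.ext e.symm), mul_zero]) (by simp), amp,
    dif_pos (Nat.lt_succ_of_le (wt_le z)), dicke, if_pos rfl]

theorem braket_amp {m : ℕ} {φ ψ : (Fin m → Fin 2) → ℂ} {x y : ℕ → ℂ} {u v : ℕ}
    (h : ∀ z, φ z = x (wt z + u)) (h' : ∀ z, ψ z = y (wt z + v)) :
    braket φ ψ = tr1^[m] (ker x y) u v := by
  simp only [braket, h, h', itr, ker]
  exact sum_wt m fun w => conj (x (w + u)) * y (w + v)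

theorem main (n s : ℕ) (hs : 1 ≤ s) (hn : s ≤ n) (c : Fin 2 → Fin (n + 1) → ℂ) (h : IsDel n s c) :
    (s + 1) * (s + 2) < 2 * n := by
  have e0 : ∀ a b, tr1^[n] (ker (amp (c a)) (amp (c b))) 0 0 = if a = b then 1 else 0 := fun a b =>
    (braket_amp (state_amp (c a)) (state_amp (c b))).symm.trans (h.1 a b)
  have e1 : ∀ u v, u < s + 1 → v < s + 1 → ∃ g : ℂ, ∀ a b,
      tr1^[n - s] (ker (amp (c a)) (amp (c b))) u v = if a = b then g else 0 := by
    intro u v hu hv
    obtain ⟨x, rfl⟩ := exists_wt (m := s) (u := u) (by omega)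
    obtain ⟨y, rfl⟩ := exists_wt (m := s) (u := v) (by omega)
    obtain ⟨I, -, hI⟩ := exists_subset_card_eq (s := (univ : Finset (Fin n))) (n := s) (by simpa)
    obtain ⟨g, hg⟩ := h.2 I I hI hI x y
    refine ⟨g, fun a b => (braket_amp (fun z => ?_) fun z => ?_).symm.trans (hg a b)⟩
    · rw [del, state_amp, wt_glue]
    · rw [del, state_amp, wt_glue]
  have hxy : Van (s + 1) (tr1^[n - s] (ker (amp (c 0)) (amp (c 1)))) := fun u v hu hv => by
    obtain ⟨g, hg⟩ := e1 u v hu hv
    simpa using hg 0 1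
  have hyx : Van (s + 1) (tr1^[n - s] (ker (amp (c 1)) (amp (c 0)))) := fun u v hu hv => by
    obtain ⟨g, hg⟩ := e1 u v hu hv
    simpa using hg 1 0
  have hz : Van (s + 1) (tr1^[n - s] fun i j =>
      ker (amp (c 0)) (amp (c 0)) i j - ker (amp (c 1)) (amp (c 1)) i j) := fun u v hu hv => by
    obtain ⟨g, hg⟩ := e1 u v hu hv
    have a0 := hg 0 0
    have a1 := hg 1 1
    rw [if_pos rfl, itr] at a0 a1
    simp only [itr, mul_sub, sum_sub_distrib, a0, a1, sub_self]
  have hn2 : 2 ≤ n := by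
    by_contra hlt
    obtain rfl : n = 1 := by omega
    obtain rfl : s = 1 := by omega
    have a0 := e0 0 0
    have a1 := hxy 0 0 (by omega) (by omega)
    have a2 := hxy 1 1 (by omega) (by omega)
    have a3 := hz 0 0 (by omega) (by omega)
    have a4 := hz 1 1 (by omega) (by omega)
    simp only [Nat.sub_self, Function.iterate_zero, id, ker, Function.iterate_one, tr1, if_true,
      mul_eq_zero, map_eq_zero, sub_eq_zero, zero_add] at a0 a1 a2 a3 a4
    have b0 : conj (amp (c 0) 0) * amp (c 0) 0 = 0 := by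
      rcases a1 with a | a
      · rw [a, mul_zero]
      · rw [a3, a, mul_zero]
    have b1 : conj (amp (c 0) 1) * amp (c 0) 1 = 0 := by
      rcases a2 with a | a
      · rw [a, mul_zero]
      · rw [a4, a, mul_zero]
    rw [b0, b1, add_zero] at a0
    exact zero_ne_one a0
  exact_mod_cast main_amp n s hn hn2 _ _ (by simpa using e0 0 0) (by simpa using e0 1 1) hxy hyx hz

end Pool.Agent.MP_649b0b_mp.H70
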